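import Pool.Agent.E8helper4.FV.Stm

/-!
# FV, pieces A0 and A1: the linear identities differentiated in `α`, and holomorphy
-/

set_option autoImplicit false

open Complex MeasureTheory Metric Set Filter Topology ComplexConjugate

namespace Pool.Agent.E8helper10.FV

open Pool.Agent.E8helper4.FV

/-- the derivative of a parametric integral -/
theorem hasDerivAt_par {U : Set ℂ} (hU : IsOpen U) {g g' : ℂ → ℝ → ℂ} (a b : ℝ)
    (hc : ∀ z ∈ U, Continuous (g z))
    (hc' : ContinuousOn (fun p : ℂ × ℝ => g' p.1 p.2) (U ×ˢ univ))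
    (hd : ∀ z ∈ U, ∀ t, HasDerivAt (fun z => g z t) (g' z t) z) {z0 : ℂ} (hz0 : z0 ∈ U) :
    HasDerivAt (fun z => ∫ t in a..b, g z t) (∫ t in a..b, g' z0 t) z0 := by
  obtain ⟨ε, hε, hball⟩ := Metric.isOpen_iff.1 hU z0 hz0
  have hcb : closedBall z0 (ε / 2) ⊆ U := fun z hz =>
    hball (mem_ball.2 (lt_of_le_of_lt (mem_closedBall.1 hz) (by linarith)))
  have hcomp : IsCompact (closedBall z0 (ε / 2) ×ˢ uIcc a b) :=
    (isCompact_closedBall z0 (ε / 2)).prod isCompact_uIcc
  obtain ⟨C, hC⟩ := hcomp.exists_bound_of_continuousOn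
    (hc'.mono (prod_mono hcb (subset_univ _)))
  have hc'z : ∀ z ∈ U, Continuous (g' z) := by
    intro z hz
    have : Continuous (fun t : ℝ => ((z, t) : ℂ × ℝ)) := by fun_prop
    rw [← continuousOn_univ] at this ⊢
    exact hc'.comp this (fun t _ => ⟨hz, mem_univ _⟩)
  have key := intervalIntegral.hasDerivAt_integral_of_dominated_loc_of_deriv_le
    (μ := volume) (F := g) (F' := g') (x₀ := z0) (a := a) (b := b) (bound := fun _ => C)
    (s := ball z0 (ε / 2)) (ball_mem_nhds z0 (by positivity))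
    (Filter.eventually_of_mem (hU.mem_nhds hz0) fun z hz => (hc z hz).aestronglyMeasurable)
    ((hc z0 hz0).intervalIntegrable _ _)
    ((hc'z z0 hz0).aestronglyMeasurable)
    (Filter.Eventually.of_forall fun t ht z hz =>
      hC (z, t) ⟨ball_subset_closedBall hz, uIoc_subset_uIcc ht⟩)
    (intervalIntegrable_const)
    (Filter.Eventually.of_forall fun t ht z hz => hd z (hcb (ball_subset_closedBall hz)) t)
  exact key.2

section basic

variable {a : ℝ} {ρ : ℝ → ℝ} {z : ℝ → ℂ}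

theorem cont_z (h : Crv ρ z) : Continuous z :=
  continuous_iff_continuousAt.2 fun s => (h.der s).continuousAt

theorem cont_dX (h : Crv ρ z) : Continuous (dX ρ) := by
  have := h.cont
  unfold dX
  fun_prop

/-- the plane wave with two parameters -/
noncomputable def E2 (z : ℝ → ℂ) (p q : ℂ) (s : ℝ) : ℂ := exp (p * z s - q * conj (z s))

theorem E_eq (a : ℝ) (z : ℝ → ℂ) (α : ℂ) (s : ℝ) : E a z α s = E2 z α ((a : ℂ) / α) s := rfl

theorem cont_E2 (h : Crv ρ z) : Continuous (fun x : (ℂ × ℂ) × ℝ => E2 z x.1.1 x.1.2 x.2) := by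
  have h1 := cont_z h
  unfold E2
  fun_prop

theorem contOn_E (h : Crv ρ z) (a : ℝ) :
    ContinuousOn (fun p : ℂ × ℝ => E a z p.1 p.2) ({α : ℂ | α ≠ 0} ×ˢ univ) := by
  have h1 : ContinuousOn (fun p : ℂ × ℝ => (((p.1, (a : ℂ) / p.1), p.2) : (ℂ × ℂ) × ℝ))
      ({α : ℂ | α ≠ 0} ×ˢ univ) := by
    refine (continuousOn_fst.prodMk (continuousOn_const.div continuousOn_fst ?_)).prodMk
      continuousOn_snd
    rintro ⟨x, t⟩ ⟨hx, -⟩
    exact hx
  exact (cont_E2 h).comp_continuousOn h1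

theorem cont_E (h : Crv ρ z) (a : ℝ) (α : ℂ) : Continuous (E a z α) := by
  have h1 := cont_z h
  unfold E
  fun_prop

theorem contOn_M (h : Crv ρ z) (a : ℝ) :
    ContinuousOn (fun p : ℂ × ℝ => M a z p.1 p.2) ({α : ℂ | α ≠ 0} ×ˢ univ) := by
  have h1 := cont_z h
  unfold M
  refine (h1.comp continuous_snd).continuousOn.add (ContinuousOn.mul ?_ ?_)
  · refine continuousOn_const.div (continuousOn_fst.pow 2) ?_
    rintro ⟨x, t⟩ ⟨hx, -⟩
    exact pow_ne_zero 2 hx
  · exact (continuous_conj.comp (h1.comp continuous_snd)).continuousOn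

theorem cont_M (h : Crv ρ z) (a : ℝ) (α : ℂ) : Continuous (M a z α) := by
  have h1 := cont_z h
  unfold M
  fun_prop

theorem dE (a : ℝ) (z : ℝ → ℂ) {α : ℂ} (hα : α ≠ 0) (s : ℝ) :
    HasDerivAt (fun α => E a z α s) (M a z α s * E a z α s) α := by
  have h1 : HasDerivAt (fun α : ℂ => α * z s - (a : ℂ) / α * conj (z s))
      (1 * z s - (-(a : ℂ) / α ^ 2) * conj (z s)) α := by
    refine ((hasDerivAt_id α).mul_const (z s)).sub (HasDerivAt.mul_const ?_ _)
    have := (hasDerivAt_inv hα).const_mul (a : ℂ)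
    refine (this.congr_deriv ?_).congr_of_eventuallyEq (Filter.Eventually.of_forall fun x => ?_)
    · ring
    · simp [div_eq_mul_inv]
  have h2 := h1.cexp
  unfold E M
  refine h2.congr_deriv ?_
  ring

/-- `d E_α / ds` -/
theorem dEs (h : Crv ρ z) (a : ℝ) (α : ℂ) (s : ℝ) : HasDerivAt (E a z α)
    (E a z α s * (α * ((ρ s : ℂ) * exp ((s : ℂ) * I)) - (a : ℂ) / α * dX ρ s)) s := by
  have h1 := h.der s
  have h2 : HasDerivAt (fun s : ℝ => conj (z s)) (dX ρ s) s := by
    have h3 := h1.star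
    refine h3.congr_deriv ?_
    rw [← starRingEnd_apply]
    unfold dX
    rw [map_mul, conj_ofReal, ← exp_conj, map_mul, conj_ofReal, conj_I]
    ring_nf
  have h4 := ((h1.const_mul α).sub (h2.const_mul ((a : ℂ) / α))).cexp
  exact h4

end basic

theorem t_A0 : A0 := by
  intro a ρ z ha hz hL
  have hac : (a : ℂ) ≠ 0 := by exact_mod_cast ha.ne'
  have hdz : Continuous (fun s : ℝ => (ρ s : ℂ) * exp ((s : ℂ) * I)) := by
    have := hz.cont
    fun_prop
  have hdX := cont_dX hz
  have h1 : ∀ α : ℂ, α ≠ 0 → ∫ s in (0 : ℝ)..(2 * Real.pi), E a z α s * dX ρ s = 0 := by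
    intro α hα
    have hE := cont_E hz a α
    have key : ∫ s in (0 : ℝ)..(2 * Real.pi),
        E a z α s * (α * ((ρ s : ℂ) * exp ((s : ℂ) * I)) - (a : ℂ) / α * dX ρ s) =
        E a z α (2 * Real.pi) - E a z α 0 := by
      refine intervalIntegral.integral_eq_sub_of_hasDerivAt (fun s _ => dEs hz a α s) ?_
      exact (hE.mul ((continuous_const.mul hdz).sub
        (continuous_const.mul hdX))).intervalIntegrable _ _
    have hper : E a z α (2 * Real.pi) = E a z α 0 := by
      have := hz.perz 0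
      rw [zero_add] at this
      unfold E
      rw [this]
    rw [hper, sub_self] at key
    have key2 : ∫ s in (0 : ℝ)..(2 * Real.pi),
        E a z α s * (α * ((ρ s : ℂ) * exp ((s : ℂ) * I)) - (a : ℂ) / α * dX ρ s) =
        α * (∫ s in (0 : ℝ)..(2 * Real.pi), E a z α s * ((ρ s : ℂ) * exp ((s : ℂ) * I))) -
        (a : ℂ) / α * ∫ s in (0 : ℝ)..(2 * Real.pi), E a z α s * dX ρ s := by
      rw [← intervalIntegral.integral_const_mul, ← intervalIntegral.integral_const_mul,
        ← intervalIntegral.integral_sub]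
      · refine intervalIntegral.integral_congr (fun s _ => ?_)
        ring
      · exact (continuous_const.mul (hE.mul hdz)).intervalIntegrable _ _
      · exact (continuous_const.mul (hE.mul hdX)).intervalIntegrable _ _
    rw [key2, hL α hα, mul_zero, zero_sub, neg_eq_zero] at key
    rcases mul_eq_zero.1 key with h | h
    · exact absurd h (div_ne_zero hac hα)
    · exact h
  have hU : IsOpen {α : ℂ | α ≠ 0} := isOpen_ne
  have gen : ∀ w : ℝ → ℂ, Continuous w →
      (∀ α : ℂ, α ≠ 0 → ∫ s in (0 : ℝ)..(2 * Real.pi), E a z α s * w s = 0) →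
      ∀ α : ℂ, α ≠ 0 → ∫ s in (0 : ℝ)..(2 * Real.pi), M a z α s * E a z α s * w s = 0 := by
    intro w hw hI α hα
    have hd := hasDerivAt_par hU (g := fun α s => E a z α s * w s)
      (g' := fun α s => M a z α s * E a z α s * w s) 0 (2 * Real.pi)
      (fun α _ => (cont_E hz a α).mul hw)
      (((contOn_M hz a).mul (contOn_E hz a)).mul (hw.comp continuous_snd).continuousOn)
      (fun α hα s => (dE a z hα s).mul_const (w s)) (z0 := α) hα
    have hz0 : HasDerivAt (fun α => ∫ s in (0 : ℝ)..(2 * Real.pi), E a z α s * w s) 0 α := by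
      refine (hasDerivAt_const α (0 : ℂ)).congr_of_eventuallyEq ?_
      filter_upwards [hU.mem_nhds hα] with β hβ
      exact hI β hβ
    exact hd.unique hz0
  intro α hα
  exact ⟨h1 α hα, gen (dX ρ) hdX h1 α hα, gen _ hdz hL α hα⟩

/-- parametric integrals over an interval are holomorphic -/
theorem par_ab {U : Set ℂ} (hU : IsOpen U) {g : ℂ → ℝ → ℂ} (a b : ℝ)
    (hc : ContinuousOn (fun p : ℂ × ℝ => g p.1 p.2) (U ×ˢ univ))
    (hd : ∀ t : ℝ, DifferentiableOn ℂ (fun z => g z t) U) :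
    DifferentiableOn ℂ (fun z => ∫ t in a..b, g z t) U := by
  have h1 : ∀ z, ∫ t in a..b, g z t =
      ((b - a : ℝ) : ℂ) * ∫ u in (0 : ℝ)..1, g z (a + (b - a) * u) := by
    intro z
    have h2 := intervalIntegral.smul_integral_comp_add_mul (f := fun t => g z t)
      (a := 0) (b := 1) (b - a) a
    rw [mul_zero, add_zero, mul_one, add_sub_cancel] at h2
    rw [← h2, Complex.real_smul]
  have h3 := Pool.Agent.Y769.SC.par U (fun z u => g z (a + (b - a) * u)) hU
    (hc.comp (f := fun p : ℂ × ℝ => ((p.1, a + (b - a) * p.2) : ℂ × ℝ))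
      (Continuous.continuousOn (by fun_prop)) (fun p hp => ⟨hp.1, mem_univ _⟩))
    (fun u _ => hd (a + (b - a) * u))
  have h4 := h3.const_mul ((b - a : ℝ) : ℂ)
  refine h4.congr (fun z _ => ?_)
  exact h1 z

section hol

variable {ρ : ℝ → ℝ} {z : ℝ → ℂ}

/-- `Y` with two parameters is jointly continuous -/
theorem cont_Y2 (h : Crv ρ z) : Continuous (fun x : (ℂ × ℂ) × ℝ =>
    ∫ t in (0 : ℝ)..x.2, E2 z (-x.1.1) (-x.1.2) t * dX ρ t) := by
  refine intervalIntegral.continuous_parametric_intervalIntegral_of_continuous ?_ continuous_snd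
  have h1 := cont_E2 h
  have h2 := cont_dX h
  have h3 : Continuous (fun y : ((ℂ × ℂ) × ℝ) × ℝ =>
      (((-y.1.1.1, -y.1.1.2), y.2) : (ℂ × ℂ) × ℝ)) := by fun_prop
  exact (h1.comp h3).mul (h2.comp continuous_snd)

theorem Y_eq (a : ℝ) (ρ : ℝ → ℝ) (z : ℝ → ℂ) (α : ℂ) (s : ℝ) : Y a ρ z α s =
    ∫ t in (0 : ℝ)..s, E2 z (-α) (-((a : ℂ) / α)) t * dX ρ t := by
  unfold Y
  simp only [E_eq, div_neg]

theorem contOn_Y (h : Crv ρ z) (a : ℝ) :
    ContinuousOn (fun p : ℂ × ℝ => Y a ρ z p.1 p.2) ({α : ℂ | α ≠ 0} ×ˢ univ) := by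
  have h1 : ContinuousOn (fun p : ℂ × ℝ => (((p.1, (a : ℂ) / p.1), p.2) : (ℂ × ℂ) × ℝ))
      ({α : ℂ | α ≠ 0} ×ˢ univ) := by
    refine (continuousOn_fst.prodMk (continuousOn_const.div continuousOn_fst ?_)).prodMk
      continuousOn_snd
    rintro ⟨x, t⟩ ⟨hx, -⟩
    exact hx
  have h2 := (cont_Y2 h).comp_continuousOn h1
  refine h2.congr (fun p _ => ?_)
  exact Y_eq a ρ z p.1 p.2

theorem diff_E (a : ℝ) (z : ℝ → ℂ) (s : ℝ) :
    DifferentiableOn ℂ (fun α => E a z α s) {α : ℂ | α ≠ 0} :=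
  fun _ hα => (dE a z hα s).differentiableAt.differentiableWithinAt

theorem diff_Y (h : Crv ρ z) (a : ℝ) (s : ℝ) :
    DifferentiableOn ℂ (fun α => Y a ρ z α s) {α : ℂ | α ≠ 0} := by
  unfold Y
  have hneg : ContinuousOn (fun p : ℂ × ℝ => ((-p.1, p.2) : ℂ × ℝ)) ({α : ℂ | α ≠ 0} ×ˢ univ) :=
    Continuous.continuousOn (by fun_prop)
  refine par_ab isOpen_ne (g := fun α t => E a z (-α) t * dX ρ t) 0 s ?_ ?_
  · refine ContinuousOn.mul ?_ ((cont_dX h).comp continuous_snd).continuousOn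
    exact (contOn_E h a).comp hneg (fun p hp => ⟨neg_ne_zero.2 hp.1, mem_univ _⟩)
  · intro t
    refine DifferentiableOn.mul_const ?_ _
    exact (diff_E a z t).comp differentiableOn_id.neg (fun α hα => neg_ne_zero.2 hα)

end hol

theorem t_A1 : A1 := by
  intro a ρ z ha hz
  have hU : IsOpen {α : ℂ | α ≠ 0} := isOpen_ne
  have hX : ContinuousOn (fun p : ℂ × ℝ => dX ρ p.2) ({α : ℂ | α ≠ 0} ×ˢ univ) :=
    ((cont_dX hz).comp continuous_snd).continuousOn
  constructor
  · exact par_ab hU (g := fun α s => E a z α s * Y a ρ z α s * dX ρ s) 0 (2 * Real.pi)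
      (((contOn_E hz a).mul (contOn_Y hz a)).mul hX)
      (fun s => ((diff_E a z s).mul (diff_Y hz a s)).mul_const _)
  · have hM : ∀ s, DifferentiableOn ℂ (fun α => M a z α s) {α : ℂ | α ≠ 0} := by
      intro s
      unfold M
      refine (differentiableOn_const _).add (DifferentiableOn.mul_const ?_ _)
      exact (differentiableOn_const _).div (differentiableOn_id.pow 2)
        (fun α hα => pow_ne_zero 2 hα)
    exact par_ab hU (g := fun α s => M a z α s * E a z α s * Y a ρ z α s * dX ρ s)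
      0 (2 * Real.pi)
      ((((contOn_M hz a).mul (contOn_E hz a)).mul (contOn_Y hz a)).mul hX)
      (fun s => (((hM s).mul (diff_E a z s)).mul (diff_Y hz a s)).mul_const _)

end Pool.Agent.E8helper10.FV
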